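import Pool.Agent.Helper92.TN.M_As1
import Pool.Agent.Helper28.TK.M_Gen
import Pool.Agent.Helper18.TG.M_LaT
import Pool.Agent.Helper21.TG.M_LbT
import Pool.Agent.Helper50.TG.M_LPolT
import Pool.Agent.Helper5.TG.M_W4T
import Pool.Agent.Helper66.TG.M_LMapT
import Pool.Agent.Helper64.TG.M_LDenT
import Pool.Agent.Helper99.TG.M_LTrT
import Pool.Agent.Helper73.TG.M_UIWT
import Pool.Agent.Helper9.TG.M_F1T
import Pool.Agent.Helper66.TN.M_QFaT
import Pool.Agent.Helper68.TN.M_QFbT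
import Pool.Agent.Helper1.TN.M_FGT
import Pool.Agent.Helper73.TN.M_DCT
import Pool.Agent.Helper38.TN.M_BES
import Pool.Agent.Helper88.TN.M_NHT
import Pool.Agent.Helper7.TN.M_NST
import Pool.Agent.Helper69.TN.M_NRT
import Pool.Agent.Helper87.TN.M_NET
import Pool.Agent.Helper58.TN.M_NXT
import Pool.Agent.Helper84.TN.M_K1T
import Pool.Agent.Helper83.TN.M_K1R
import Pool.Agent.Helper60.LV.M_CA1
import Pool.Agent.Helper97.LV.M_CA2
import Pool.Agent.Helper4.LV.M_CA3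
import Pool.Agent.Helper76.LV.M_CA4
import Pool.Agent.Helper92.LV.M_CA5
import Pool.Agent.Helper63.LV.M_MF

/-!
# Project T3K: level `p`
-/

set_option autoImplicit false

open Pool.Agent.Helper14.CV (G0 Homog EqC act StFar)
open Pool.Agent.Helper28.WK
open Pool.Agent.Helper14.WK
open Pool.Agent.Helper28.LV
open Pool.Agent.Helper76.TG
open Pool.Agent.Helper28.TK
open Pool.Agent.Helper76.TX (Sg Jac)

namespace Pool.Agent.Helper92.TN

theorem lbT : LbT := Pool.Agent.Helper21.TG.hLbT Pool.Agent.Helper18.TG.hLaT uiT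

theorem krhc : KRHc :=
  Pool.Agent.Helper82.TK.hKRH (Pool.Agent.Helper79.WK.hKH1 ka1) Pool.Agent.Helper32.WK.hKMod
    Pool.Agent.Helper10.CV.hN1

/-- The root number of a newform of level `p`. -/
theorem k1r : K1R :=
  Pool.Agent.Helper83.TN.hK1R ka1 Pool.Agent.Helper84.TN.hK1T Pool.Agent.Helper38.TK.hKRW
    Pool.Agent.Helper40.TK.hKRFE krhc

theorem ca5 : CA5 :=
  Pool.Agent.Helper92.LV.hCA5 Pool.Agent.Helper60.LV.hCA1 Pool.Agent.Helper97.LV.hCA2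
    Pool.Agent.Helper4.LV.hCA3 Pool.Agent.Helper76.LV.hCA4

/-- Level `p`. -/
theorem genP1 (p : ℕ) (hp : p.Prime) : GenP p 1 := by
  intro A hne hk f hA hf
  obtain ⟨a4, kmod, p1, p2, h3, a8, n4, p5, p6, p4, a5, kin⟩ := Pool.Agent.Helper28.LV.ana
  have a1 := ka1
  have a1b := Pool.Agent.Helper92.WK.hKA1b a1
  have ke := Pool.Agent.Helper6.WK.hKE a1
  have b1 := Pool.Agent.Helper82.WK.hKB1
  have b2 := Pool.Agent.Helper81.WK.hKB2 a1 a1b ke b1
  have b3 := Pool.Agent.Helper90.WK.hKB3 a1 b1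
  have hK := hf.toK one_ne_zero
  obtain ⟨w, hw, hR, hFk⟩ := k1r p hne A hk f hp hK
  refine ⟨w, hw, hR, fun D hD hsq => isTwK_exists jac tle hne A D hD hsq f, ?_⟩
  intro D hD hsq hpD hTA hwe L hL h0
  obtain ⟨I, hI, hDat⟩ := hBrgNT a4 kmod p1 p2 h3 Pool.Agent.Helper33.TK.hKP4W p A 1 w hw hne f
    hf.hecke hFk
  have he := eI_zero jac tlc hne A D hD hsq f I hI L hL h0
  exact lev1Of lbT Pool.Agent.Helper50.TG.hLPolT Pool.Agent.Helper5.TG.hW4T
    Pool.Agent.Helper66.TG.hLMapT Pool.Agent.Helper64.TG.hLDenT Pool.Agent.Helper99.TG.hLTrT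
    Pool.Agent.Helper66.TN.hQFaT Pool.Agent.Helper68.TN.hQFbT Pool.Agent.Helper1.TN.hFGT
    Pool.Agent.Helper73.TN.hDCT Pool.Agent.Helper38.TN.hBES Pool.Agent.Helper88.TN.hNHT
    Pool.Agent.Helper7.TN.hNST Pool.Agent.Helper69.TN.hNRT Pool.Agent.Helper87.TN.hNET
    Pool.Agent.Helper58.TN.hNXT Pool.Agent.Helper1.TK.hKINS a1 b1 b2 b3 p1 ca5
    Pool.Agent.Helper63.LV.hMF p hp D hD hpD hTA A hA
    (fun h Φ hΦ => cen1Of Pool.Agent.Helper18.TG.hLaT Pool.Agent.Helper21.TG.hLbT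
      Pool.Agent.Helper50.TG.hLPolT Pool.Agent.Helper73.TG.hUIWT Pool.Agent.Helper9.TG.hF1T
      Pool.Agent.Helper5.TG.hW4T Pool.Agent.Helper66.TG.hLMapT Pool.Agent.Helper64.TG.hLDenT
      p hp D hpD hTA A h Φ hΦ)
    hne f hK I hI (hwe ▸ hDat) he

end Pool.Agent.Helper92.TN
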