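import Pool.Agent.Helper92.TN.StN
import Pool.Agent.Helper76.TG.Asm

/-!
# Project T3K, level `p`: assembly, part 1
-/

set_option autoImplicit false

open Pool.Agent.Helper14.CV (G0 Homog EqC act StFar)
open Pool.Agent.Helper28.WK
open Pool.Agent.Helper14.WK
open Pool.Agent.Helper28.LV
open Pool.Agent.Helper76.TG
open Pool.Agent.Helper28.TK
open Pool.Agent.Helper76.TX (Sg)

namespace Pool.Agent.Helper92.TN

/-- The common `p`-adic part. -/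
private theorem core (lb : LbT) (pol : StLPolT) (w4 : StW4T) (p : ℕ)
    (hp : Fact p.Prime) (D : ℕ) (hD : Nat.Coprime p D) (hTA : TAt p D) (a n : ℕ)
    (Φ : ℤ → ℤ → ℕ → ℤ_[p]) (hW : WSNT p a n D Φ) :
    ∃ ψ : ℤ → ℤ → ℤ_[p], Homog ψ ∧ (∀ M : ℕ, 2 ≤ M → SymP p M (M + n - 1) (redP M ψ)) ∧
      EqC (jacobiSym p D • act p 0 0 1 ψ - ψ) ((4 : ℤ) • cp Φ a) ∧
      (∀ h : ℤ, EqC (Nb a h ψ) 0) ∧
      (∀ c' : ℤ, (p : ℤ) ^ n ∣ c' → EqC (Nc a c' (act p 0 0 1 ψ)) 0) := by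
  obtain ⟨ψ, hψ1, hψ2, hψ3⟩ := lb p hp D hD hTA n (cp Φ a) (hW.hom a (by omega))
    (fun M hM => hLW1T p hp a n D Φ hW M (by omega)) hW.fr
    hW.st (fun M hM => w4 p hp a D Φ hD hW.hk M (by omega))
  obtain ⟨hb, hc⟩ := hLW2T p hp a n D Φ hW
  obtain ⟨hb', hc'⟩ := pol p hp (jacobiSym p D) a n (cp Φ a) ψ (csgn hD) (hW.hom a (by omega)) hψ1
    hψ2 hψ3 hb hc
  exact ⟨ψ, hψ1, hψ2, hψ3, hb', hc'⟩

private theorem eqv1 {p a D : ℕ} {R : Type} [AddCommGroup R] {Φ : ℤ → ℤ → ℕ → R}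
    (hW : WSNT p a 1 D Φ) : ∀ α β γ δ : ℤ, α * δ - β * γ = 1 → (p : ℤ) ∣ γ →
    EqC (act α β γ δ (cp Φ a)) (pr Φ ((Polynomial.C α * Polynomial.X + Polynomial.C β) ^ a *
      (Polynomial.C γ * Polynomial.X + Polynomial.C δ) ^ a)) := by
  intro α β γ δ hd hg
  have h := hW.eqv α β γ δ hd (by simpa using hg) a (by omega)
  rwa [show 2 * a - a = a by omega] at h

/-- The `p`-adic part, case `(-1)^a = s`. -/
theorem hQPT (lb : LbT) (pol : StLPolT) (ms : MS) (rt : RgT) (ru : RgU) (eg : EG)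
    (qfa : StQFaT) (qfb : StQFbT) (w4 : StW4T) (p : ℕ)
    (hp : Fact p.Prime) (D : ℕ) (hD : Nat.Coprime p D) (hTA : TAt p D) (a : ℕ)
    (Φ : ℤ → ℤ → ℕ → ℤ_[p]) (hW : WSNT p a 1 D Φ) :
    ∃ Ψ : ℤ → ℤ → ℕ → ℚ_[p], L1T p a (jacobiSym p D) (fun x y i => (Φ x y i : ℚ_[p])) Ψ := by
  obtain ⟨ψ, hψ1, hψ2, hψ3, hb', hc'⟩ := core lb pol w4 p hp D hD hTA a 1 Φ hW
  obtain ⟨F, hF⟩ := qfa ms rt ru eg p hp a (jacobiSym p D) Φ ψ (eqv1 hW) hψ1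
    (fun M hM => by simpa using hψ2 M (by omega)) hψ3
    hb' (fun c h => hc' c (by simpa using h))
  exact qfb rt p hp a (jacobiSym p D) Φ F hF

/-- The analytic part: a symbol `Ψ` of level one gives a cusp form of level one. -/
theorem hANT (nr : NRT) (ne : NET) (ca5 : CA5) (mf : MF) (nx : NXT) (a1 : SKA1)
    (p : ℕ) (hp : p.Prime) (A : ℕ) (hA1 : 1 ≤ A) (c s : ℤ) (hc : c = 1 ∨ c = -1)
    (hs : s = (-1) ^ A)
    (hne : NeZero (p ^ 1)) (f : CuspForm (G0 (p ^ 1)) (2 * A + 2)) (hf : IsNewformK p 1 f)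
    (I Ψ : ℤ → ℤ → ℕ → ℂ) (hI : IsPotK A f I) (hinf : ∀ i : ℕ, i ≤ 2 * A → I 1 0 i = 0)
    (hhom : ∀ i : ℕ, i ≤ 2 * A → Homog (cp I i)) (hL : L1T p A c (PhNT A s I) Ψ) : False := by
  obtain ⟨P, hP, hrel⟩ := nr p A c s hne f I Ψ hp hc hs hA1 hI hinf hhom hL
  obtain ⟨b0, b1, bs, hG⟩ := ne p A c hne f hp hc hA1
  set κ : ℂ := ((2 * A).factorial : ℂ) * ((-1) ^ A * Complex.I) with hκ
  have hκ0 : κ ≠ 0 := mul_ne_zero (by exact_mod_cast (Nat.factorial_ne_zero _))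
    (mul_ne_zero (pow_ne_zero _ (by norm_num)) Complex.I_ne_zero)
  have hF := ca5 (2 * A) (bcoT p A c f) (Polynomial.C κ⁻¹ * P) ⟨A, by ring⟩
    ((Polynomial.natDegree_C_mul_le _ _).trans hP) b0 bs (by
      intro x hx
      have h1 := hrel x hx
      rw [hG x, hG (-1 / x)] at h1
      rw [Polynomial.eval_mul, Polynomial.eval_C]
      have e1 : ((-1 / x : ℝ) : ℂ) = -1 / (x : ℂ) := by push_cast; rfl
      rw [e1] at h1
      have e2 : (-(-1 / (x : ℂ))) = 1 / (x : ℂ) := by ring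
      rw [e2] at h1
      have h2 : κ * ((x : ℂ) ^ (2 * A) * (EE (2 * A) (bcoT p A c f) (-1 / (x : ℂ)) +
          EE (2 * A) (bcoT p A c f) (1 / (x : ℂ)))) =
          κ * (EE (2 * A) (bcoT p A c f) x + EE (2 * A) (bcoT p A c f) (-x)) +
            P.eval (x : ℂ) := by
        rw [← h1]
        ring
      refine mul_left_cancel₀ hκ0 ?_
      rw [h2, mul_add κ (_ + _) (κ⁻¹ * _), ← mul_assoc κ κ⁻¹, mul_inv_cancel₀ hκ0, one_mul])
  obtain ⟨g, hg⟩ := mf p A (bcoT p A c f) b0 bs hF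
  have hHg : ∀ l : ℕ, l.Prime → l ≠ p → HeckeEigK g l (fcK f l) := fun l hl hlp =>
    nx a1 p A (p ^ 1) c hne f g hp hg l hl hlp (hf.hecke l hl hlp)
  have hg0 : g = 0 := hf.new g hHg
  have h1 : fcK g 1 = 1 := by rw [hg 1, b1, hf.normalised]
  rw [hg0] at h1
  have h2 : fcK (0 : CuspForm (G0 (p ^ 0)) (2 * A + 2)) 1 = 0 := by
    unfold fcK
    have h4 : ((0 : CuspForm (G0 (p ^ 0)) (2 * A + 2)) : UpperHalfPlane → ℂ) = 0 := rfl
    rw [h4]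
    simp [UpperHalfPlane.qExpansion_zero]
  rw [h2] at h1
  exact zero_ne_one h1

/-- From the vanishing of the symmetrised potentials. -/
theorem back (p a n : ℕ) (w s : ℤ) (I : ℤ → ℤ → ℕ → ℂ) (hI : IDnT p a n w I)
    (hz : ∀ i : ℕ, i ≤ 2 * a → EqC (cp (PhNT a s I) i) 0) :
    ∀ i : ℕ, i ≤ 2 * a → ∀ x y : ℤ, (x ≠ 0 ∨ y ≠ 0) →
      I x y i + (s : ℂ) * ((-1) ^ (a + i) * I (-x) y i) = 0 := by
  intro i hi x y hxy
  obtain ⟨c, hc⟩ := hz i hi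
  have h1 := hc 1 0 (Or.inl one_ne_zero)
  have h2 := hc x y hxy
  have h10 : I 1 0 i = 0 := hI.inf i hi
  have h10' : I (-1) 0 i = 0 := by
    have := hI.hom i hi (-1) 1 0 (by norm_num) (Or.inl one_ne_zero)
    simp only [cp, mul_one, mul_zero] at this
    rw [this, h10]
  simp only [cp, PhNT, Pi.zero_apply, zero_add] at h1 h2
  rw [h10, h10', smul_zero, add_zero] at h1
  rw [← h1] at h2
  rw [← h2, zsmul_eq_mul]
  push_cast
  ring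

/-- Level `p`: no newform of weight `2A+2 ≥ 4` with vanishing twisted central value. -/
theorem lev1Of (lb : LbT) (pol : StLPolT) (w4 : StW4T) (hM : StLMapT) (hDn : StLDenT)
    (ltr : StLTrT) (qfa : StQFaT) (qfb : StQFbT) (fg : StFGT) (dc : StDCT) (bes : StBES)
    (nht : StNHT) (nst : StNST) (nrt : StNRT) (net : StNET) (nxt : NXT) (kin : StKINS)
    (a1 : SKA1) (b1 : SKB1) (b2 : SKB2) (b3 : SKB3) (p1 : SKP1) (ca5 : CA5) (mf : MF)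
    (p : ℕ) (hp : p.Prime) (D : ℕ) (hodd : Odd D) (hD : Nat.Coprime p D) (hTA : TAt p D)
    (A : ℕ) (hA : 1 ≤ A)
    (c1 : (-1 : ℤ) ^ A = -jacobiSym (-1) D → ∀ Φ : ℤ → ℤ → ℕ → ℂ, WSNT p A 1 D Φ →
      ∀ i : ℕ, i ≤ 2 * A → EqC (cp Φ i) 0)
    (hne : NeZero (p ^ 1)) (f : CuspForm (G0 (p ^ 1)) (2 * A + 2)) (hf : IsNewformK p 1 f)
    (I : ℤ → ℤ → ℕ → ℂ) (hI : IsPotK A f I)
    (hID : IDnT p A 1 (jacobiSym (-1) D * jacobiSym p D ^ 1) I) (he : eI A D I = 0) : False := by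
  have hWS := ltr p A 1 D I hp hodd hD hID he
  have hs := ssgn D
  have far := Pool.Agent.Helper38.CV.hFar
  have hcase : (-1 : ℤ) ^ A = -jacobiSym (-1) D ∨ jacobiSym (-1) D = (-1) ^ A := by
    rcases neg_one_pow_eq_or ℤ A with h | h <;> rcases hs with h' | h' <;> rw [h, h'] <;> simp
  rcases hcase with h | h
  · have hz := back p A 1 _ _ I hID (c1 h _ hWS)
    have h1 := kin b1 b2 b3 p1 (p ^ 1) hne A f I (jacobiSym (-1) D) hs hA hI hz 1 le_rfl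
    rw [hf.normalised] at h1
    exact one_ne_zero h1
  · obtain ⟨Ψ, hΨ⟩ := dc (fg far) far hM hDn p ⟨hp⟩ A D (jacobiSym p D) (cne hp hD)
      (fun Φ hΦ => hQPT lb pol msT Pool.Agent.Helper34.LV.hRgT Pool.Agent.Helper51.LV.hRgU
        Pool.Agent.Helper47.LV.hEG qfa qfb w4 p ⟨hp⟩ D hD hTA A Φ hΦ) _ hWS
    have ns := nst b1 b2 b3
    have nr := nrt b1 b3 ns
    have ne := net a1 (nht a1 (bes a1))
    exact hANT nr ne ca5 mf nxt a1 p hp A hA _ _ (csgn hD) h hne f hf I Ψ hI hID.inf hID.hom hΨ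

end Pool.Agent.Helper92.TN
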