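import Pool.Agent.Helper76.TG.StG
import Pool.Agent.Helper28.TK.StK
import Pool.Agent.Helper28.LV.StN

/-!
# Project T3K, level `p` (`n = 1`): statements

`f` is a newform of level `p`, weight `2a+2`, `a ≥ 1`, with root number `w = s c`, `s = χ(-1)`, `c = χ(p)`; `η = c w = s`. If `(-1)^a = -s` then F1T (`Pool/Agent/Helper76/TG/StG.lean`) gives `cp Φ a ≈ 0`. Here is the other
case `(-1)^a = s`: the `p`-adic argument gives a symbol `Ψ` of level ONE with `4 Φ = c u*Ψ - Ψ`, and then `F = ∑_s (c p^(a+1))^s f(p^s z)` is a cusp form of level one (converse theorem, `CA5` and `MF` of project LV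
unchanged) with the same eigenvalues as `f`: contradiction to `f` new. The models are the modules of project LV with the same names without `T` (statements in `Pool/Agent/Helper28/LV/StN.lean`). Moreover the root numbers of the
newforms of level `p`. `D = (v, w)`, `H(D) = H(w) - H(v)`.
-/

set_option autoImplicit false

open Pool.Agent.Helper14.CV (G0 Homog EqC act StFar)
open Pool.Agent.Helper28.WK
open Pool.Agent.Helper14.WK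
open Pool.Agent.Helper28.LV
open Pool.Agent.Helper76.TG
open Pool.Agent.Helper28.TK
open Pool.Agent.Helper76.TX (Sg)

namespace Pool.Agent.Helper92.TN

/-! ### The `p`-adic part -/

/-- `Ψ` is a symbol of level one and weight `2a+2` with `4 Φ_t(D) = c p^(a-t) Ψ_t(uD) - Ψ_t(D)`. As `L1S` with the sign `c`. -/
structure L1T {R : Type} [AddCommGroup R] (p a : ℕ) (c : ℤ) (Φ Ψ : ℤ → ℤ → ℕ → R) : Prop where
  hom : ∀ i : ℕ, i ≤ 2 * a → Homog (cp Ψ i)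
  inf : ∀ i : ℕ, i ≤ 2 * a → Ψ 1 0 i = 0
  eqv : ∀ α β γ δ : ℤ, α * δ - β * γ = 1 → ∀ i : ℕ, i ≤ 2 * a →
    EqC (act α β γ δ (cp Ψ i)) (pr Ψ ((Polynomial.C α * Polynomial.X + Polynomial.C β) ^ i *
      (Polynomial.C γ * Polynomial.X + Polynomial.C δ) ^ (2 * a - i)))
  rel : ∀ t : ℕ, t ≤ 2 * a → ∀ x y : ℤ, (x ≠ 0 ∨ y ≠ 0) →
    (4 * (p : ℤ) ^ t) • (Φ x y t - Φ 1 0 t) =
      (c * (p : ℤ) ^ a) • Ψ (p * x) y t - ((p : ℤ) ^ t) • Ψ x y t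

/-- The system `F_D` of functions of a matrix belonging to `ψ`. As `FSys` with the sign `c` in the last condition. -/
def FSysT (p a : ℕ) [Fact p.Prime] (c : ℤ) (Φ : ℤ → ℤ → ℕ → ℤ_[p])
    (F : ℤ → ℤ → ℤ → ℤ → ℚ_[p] → ℚ_[p] → ℚ_[p] → ℚ_[p] → ℚ_[p]) : Prop :=
  (∀ v1 v2 w1 w2 : ℤ, (v1 ≠ 0 ∨ v2 ≠ 0) → (w1 ≠ 0 ∨ w2 ≠ 0) → Rg a (F v1 v2 w1 w2)) ∧
  (∀ v1 v2 w1 w2 z1 z2 : ℤ, (v1 ≠ 0 ∨ v2 ≠ 0) → (w1 ≠ 0 ∨ w2 ≠ 0) → (z1 ≠ 0 ∨ z2 ≠ 0) →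
    ∀ α β γ δ : ℚ_[p], F v1 v2 w1 w2 α β γ δ + F w1 w2 z1 z2 α β γ δ = F v1 v2 z1 z2 α β γ δ) ∧
  (∀ v1 v2 w1 w2 k : ℤ, (v1 ≠ 0 ∨ v2 ≠ 0) → (w1 ≠ 0 ∨ w2 ≠ 0) → k ≠ 0 →
    ∀ α β γ δ : ℚ_[p], F v1 v2 (k * w1) (k * w2) α β γ δ = F v1 v2 w1 w2 α β γ δ) ∧
  (∀ v1 v2 w1 w2 : ℤ, (v1 ≠ 0 ∨ v2 ≠ 0) → (w1 ≠ 0 ∨ w2 ≠ 0) → ∀ x y z t : ℤ, x * t - y * z = 1 →
    ∀ α β γ δ : ℚ_[p], F (x * v1 + y * v2) (z * v1 + t * v2) (x * w1 + y * w2) (z * w1 + t * w2)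
      α β γ δ = F v1 v2 w1 w2 (α * x + β * z) (α * y + β * t) (γ * x + δ * z) (γ * y + δ * t)) ∧
  (∀ v1 v2 w1 w2 : ℤ, (v1 ≠ 0 ∨ v2 ≠ 0) → (w1 ≠ 0 ∨ w2 ≠ 0) → ∀ α β γ δ : ℚ_[p],
    4 * EGf a Φ v1 v2 w1 w2 α β γ δ =
      (c : ℚ_[p]) * F (p * v1) v2 (p * w1) w2 α (p * β) (γ / p) δ - F v1 v2 w1 w2 α β γ δ)

/-- QFAT. Model: `Pool/Agent/Helper7/LV/M_QFa.lean` (proof in the docstring of `StQFa`). The only change: now `c ψ(u z) = ψ(z) + 4 G(z) + k`, so the last identity is, for integral `g` in `Γ₀(p)`, `4 G(gD) = c ψ(u g D) - ψ(g D) = c F_{uD}(g') - F_D(g)`. `Nc a c' ψ ≈ 0` for all `c'` is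
proved from the last hypothesis exactly as before. -/
def StQFaT : Prop := MS → RgT → RgU → EG → ∀ (p : ℕ) (_ : Fact p.Prime) (a : ℕ) (c : ℤ)
  (Φ : ℤ → ℤ → ℕ → ℤ_[p]) (ψ : ℤ → ℤ → ℤ_[p]),
  (∀ α β γ δ : ℤ, α * δ - β * γ = 1 → (p : ℤ) ∣ γ →
    EqC (act α β γ δ (cp Φ a)) (pr Φ ((Polynomial.C α * Polynomial.X + Polynomial.C β) ^ a *
      (Polynomial.C γ * Polynomial.X + Polynomial.C δ) ^ a))) →
  Homog ψ → (∀ M : ℕ, 3 ≤ M → SymP p M M (redP M ψ)) →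
  EqC (c • act p 0 0 1 ψ - ψ) ((4 : ℤ) • cp Φ a) →
  (∀ h : ℤ, EqC (Nb a h ψ) 0) → (∀ c' : ℤ, (p : ℤ) ∣ c' → EqC (Nc a c' (act p 0 0 1 ψ)) 0) →
  ∃ F : ℤ → ℤ → ℤ → ℤ → ℚ_[p] → ℚ_[p] → ℚ_[p] → ℚ_[p] → ℚ_[p], FSysT p a c Φ F

/-- QFBT. Model: `Pool/Agent/Helper98/LV/M_QFb.lean` (proof in the docstring of `StQFb`), with the factor `c` in `rel`: `4 EGf_D(r,s,r,s) = c F_{uD}(r, ps, r/p, s) - Q_D(r,s)`. -/
def StQFbT : Prop := RgT → ∀ (p : ℕ) (_ : Fact p.Prime) (a : ℕ) (c : ℤ) (Φ : ℤ → ℤ → ℕ → ℤ_[p])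
  (F : ℤ → ℤ → ℤ → ℤ → ℚ_[p] → ℚ_[p] → ℚ_[p] → ℚ_[p] → ℚ_[p]), FSysT p a c Φ F →
  ∃ Ψ : ℤ → ℤ → ℕ → ℚ_[p], L1T p a c (fun x y i => (Φ x y i : ℚ_[p])) Ψ

/-- The content of FGT. -/
def FGT : Prop := ∀ (p a n D : ℕ) (R : Type) (_ : AddCommGroup R) (Φ : ℤ → ℤ → ℕ → R), p.Prime →
  WSNT p a n D Φ → ∃ S : Finset R, ∀ i : ℕ, i ≤ 2 * a → ∀ x y : ℤ, (x ≠ 0 ∨ y ≠ 0) →
    Φ x y i - Φ 1 0 i ∈ AddSubgroup.closure (S : Set R)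

/-- FGT. Finite generation. Copy of `Pool/Agent/Helper61/LV/M_FG.lean` (only `hom` and `eqv` are used). -/
def StFGT : Prop := StFar → FGT

/-- DCT. Descent to `ℂ`. Copy of `Pool/Agent/Helper9/LV/M_DC.lean` (proof in the docstring of `StDC`, `Pool/Agent/Helper28/LV/StN.lean`) with `WSNT`, `L1T`, LMAPT, LDENT. -/
def StDCT : Prop := FGT → StFar → StLMapT → StLDenT → ∀ (p : ℕ) (_ : Fact p.Prime) (a D : ℕ) (c : ℤ), D ≠ 0 →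
  (∀ Φ : ℤ → ℤ → ℕ → ℤ_[p], WSNT p a 1 D Φ →
    ∃ Ψ : ℤ → ℤ → ℕ → ℚ_[p], L1T p a c (fun x y i => (Φ x y i : ℚ_[p])) Ψ) →
  ∀ Φ : ℤ → ℤ → ℕ → ℂ, WSNT p a 1 D Φ → ∃ Ψ : ℤ → ℤ → ℕ → ℂ, L1T p a c Φ Ψ

/-! ### Fourier series -/

/-- The content of BES. -/
def BES : Prop := ∀ (N : ℕ) (_ : NeZero N) (A : ℕ) (f : CuspForm (G0 N) (2 * A + 2)), 1 ≤ A →
  Summable (fun m : ℕ => ‖fcK f m‖ / (m : ℝ) ^ (2 * A + 1))

/-- BES. Absolute convergence, also in weight `4` (`A = 1`). Proof. For `A ≥ 2` see the first part of `Pool/Agent/Helper33/LV/M_NH.lean`; the following proof is for all `A ≥ 1`. `‖f(x+iy)‖ ≤ C y^(-A-1)` (`CuspFormClass.exists_bound`, as in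
`Pool/Agent/Helper82/WK/M_KB1.lean`). For fixed `y` the series `f(x+iy) = ∑ a_m e^(-2πmy) e(mx)` (SKA1) converges absolutely and uniformly in `x`, so (Parseval: integrate the absolutely convergent double series `|f|² = f * conj f` over `[0,1]`, or
Bessel: `0 ≤ ∫ |f - S|²` for the finite sum `S` over `m ≤ X`, `∫_0^1 f(x+iy) e(-mx) dx = a_m e^(-2πmy)`) `∑_{m ≤ X} |a_m|² e^(-4πmy) ≤ ∫_0^1 |f(x+iy)|² dx ≤ C² y^(-2A-2)`; with `y = 1/X`: `∑_{1≤m≤X} |a_m|² ≤ C' X^(2A+2)`, and by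
Cauchy-Schwarz `∑_{1≤m≤X} |a_m| ≤ C'' X^(A+3/2)`. As `A + 3/2 < 2A + 1`, `LSeriesSummable_of_sum_norm_bigO` (Mathlib, `r = A + 3/2`, `s = 2A+1`) gives the claim. -/
def StBES : Prop := SKA1 → BES

/-- The content of NHT. -/
def NHT : Prop := ∀ (N : ℕ) (_ : NeZero N) (A : ℕ) (f : CuspForm (G0 N) (2 * A + 2)), 1 ≤ A →
  Summable (fun m : ℕ => ‖fcK f m‖ / (m : ℝ) ^ (2 * A + 1)) ∧
  ∀ x : ℝ, HasSum (fun m : ℕ => fcK f m * ((2 * A).factorial / (2 * Real.pi * m) ^ (2 * A + 1) : ℝ) *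
    Complex.exp (2 * Real.pi * Complex.I * m * x)) (HK A f x)

/-- NHT. Second part of `Pool/Agent/Helper33/LV/M_NH.lean` with the summability from BES. -/
def StNHT : Prop := SKA1 → BES → NHT

/-- `∑_s (c p^(-a))^s (H(p^s x) + H(-p^s x))`, `H = HK a f`. As `Gp`, with the sign `c`. -/
noncomputable def GpT {N : ℕ} {k : ℤ} (p a : ℕ) (c : ℤ) (f : CuspForm (G0 N) k) (x : ℝ) : ℂ :=
  ∑' s : ℕ, ((c : ℂ) ^ s * ((p : ℂ) ^ (a * s))⁻¹) *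
    (HK a f ((p : ℝ) ^ s * x) + HK a f (-((p : ℝ) ^ s * x)))

/-- The content of NST. -/
def NST : Prop := ∀ (p a : ℕ) (c s : ℤ) (_ : NeZero (p ^ 1)) (f : CuspForm (G0 (p ^ 1)) (2 * a + 2))
  (I Ψ : ℤ → ℤ → ℕ → ℂ), p.Prime → (c = 1 ∨ c = -1) → s = (-1) ^ a → 1 ≤ a → IsPotK a f I →
  (∀ i : ℕ, i ≤ 2 * a → I 1 0 i = 0) → (∀ i : ℕ, i ≤ 2 * a → Homog (cp I i)) →
  L1T p a c (PhNT a s I) Ψ → ∀ r q : ℤ, 0 < q →
  ∑ t ∈ Finset.range (2 * a + 1), ((2 * a).choose t : ℂ) * (-(r : ℂ)) ^ (2 * a - t) * (q : ℂ) ^ t *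
    Ψ r q t = 4 * ((-1) ^ a * Complex.I) * (q : ℂ) ^ (2 * a) * GpT p a c f ((r : ℝ) / (q : ℝ))

/-- NST. The series for `Ψ`. Model: `Pool/Agent/Helper55/LV/M_NS.lean` (proof in the docstring of `StNS`). Changes: `s (-1)^(a+t) = (-1)^t`, so `hΦ(r,q) = (-1)^(a+1) i q^(2a) (H(r/q) + H(-r/q))` for `a` of any parity (KB2; `(-r)^(2a-t) (-1)^t = r^(2a-t)`); `rel` gives
`4 p^(2a) hΦ(r,q) = c p^a hΨ(pr,q) - p^(2a) hΨ(r,q)`, so `hΨ(r,q) = c p^(-a) hΨ(pr,q) - 4 hΦ(r,q)` and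
`hΨ(r,q) = -4 ∑_{j<R} (c p^(-a))^j hΦ(p^j r,q) + (c p^(-a))^R hΨ(p^R r,q)`; the last term tends to `0` (`a ≥ 1`, `|c| = 1`). -/
def StNST : Prop := SKB1 → SKB2 → SKB3 → NST

/-- The content of NRT. -/
def NRT : Prop := ∀ (p a : ℕ) (c s : ℤ) (_ : NeZero (p ^ 1)) (f : CuspForm (G0 (p ^ 1)) (2 * a + 2))
  (I Ψ : ℤ → ℤ → ℕ → ℂ), p.Prime → (c = 1 ∨ c = -1) → s = (-1) ^ a → 1 ≤ a → IsPotK a f I →
  (∀ i : ℕ, i ≤ 2 * a → I 1 0 i = 0) → (∀ i : ℕ, i ≤ 2 * a → Homog (cp I i)) →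
  L1T p a c (PhNT a s I) Ψ → ∃ P : Polynomial ℂ, P.natDegree ≤ 2 * a ∧
    ∀ x : ℝ, x ≠ 0 → (x : ℂ) ^ (2 * a) * GpT p a c f (-1 / x) = GpT p a c f x + P.eval (x : ℂ)

/-- NRT. The transformation under `-1/x`. Copy of `Pool/Agent/Helper28/LV/M_NR.lean` (also `Pool/Agent/Helper16/LV/M_NR.lean`; proof in the docstring of `StNR`), with `4 (-1)^a i` instead of `4 i`. -/
def StNRT : Prop := SKB1 → SKB3 → NST → NRT

/-- The coefficients of `∑_s (c p^(a+1))^s f(p^s z)`. As `bco`, with the sign `c`. -/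
noncomputable def bcoT {N : ℕ} {k : ℤ} (p a : ℕ) (c : ℤ) (f : CuspForm (G0 N) k) (M : ℕ) : ℂ :=
  ∑ s ∈ Finset.range (M + 1),
    if p ^ s ∣ M then ((c : ℂ) ^ s * (p : ℂ) ^ ((a + 1) * s)) * fcK f (M / p ^ s) else 0

/-- The content of NET. -/
def NET : Prop := ∀ (p a : ℕ) (c : ℤ) (_ : NeZero (p ^ 1)) (f : CuspForm (G0 (p ^ 1)) (2 * a + 2)),
  p.Prime → (c = 1 ∨ c = -1) → 1 ≤ a →
  bcoT p a c f 0 = 0 ∧ bcoT p a c f 1 = fcK f 1 ∧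
  Summable (fun M : ℕ => ‖bcoT p a c f M‖ / (M : ℝ) ^ (2 * a + 1)) ∧
  ∀ x : ℝ, GpT p a c f x = ((2 * a).factorial : ℂ) * ((-1) ^ a * Complex.I) *
    (EE (2 * a) (bcoT p a c f) x + EE (2 * a) (bcoT p a c f) (-x))

/-- NET. Model: `Pool/Agent/Helper71/LV/M_NE.lean` (proof in the docstring of `StNE`). Changes: `(c p^(-a))^s c_(M/p^s) = c^s p^((a+1)s) a_(M/p^s) (2a)!/(2πM)^(2a+1)`; `(2πiM)^(2a+1) = (-1)^a i (2πM)^(2a+1)`, so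
`1/(2πM)^(2a+1) = (-1)^a i/(2πiM)^(2a+1)`; `a ≥ 1`, for the convergence of the double series: `∑_s p^(-as) < ∞`. -/
def StNET : Prop := SKA1 → NHT → NET

/-- NXT. The Hecke relations of the coefficients. Copy of `Pool/Agent/Helper21/LV/M_NX.lean` (docstring of `NX`). -/
def NXT : Prop := SKA1 → ∀ (p a N : ℕ) (c : ℤ) (_ : NeZero N) (f : CuspForm (G0 N) (2 * a + 2))
  (g : CuspForm (G0 (p ^ 0)) (2 * a + 2)), p.Prime → (∀ M : ℕ, fcK g M = bcoT p a c f M) →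
  ∀ l : ℕ, l.Prime → l ≠ p → HeckeEigK f l (fcK f l) → HeckeEigK g l (fcK f l)

/-! ### The root number of a newform of level `p` -/

/-- K1T. The trace from level `p` to level one, as a cusp form. Model: `Pool/Agent/Helper22/WK/M_KN2.lean` (`CuspForm.trace`); now the right cosets of `Γ₀(p)` in `SL₂(ℤ) = Γ₀(p^0)` are those of `1` and of `(0 -1; 1 i)`, `0 ≤ i < p` (`g = (a b; c d)`: if `p ∣ c` the coset of `1`; otherwise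
`g (0 -1; 1 i)⁻¹ = g (i 1; -1 0)` has lower left entry `c i - d`, divisible by `p` for exactly one `i`); index the cosets by `Option (Fin p)`. -/
def K1T : Prop := ∀ (p : ℕ) (_ : NeZero (p ^ 0)) (_ : NeZero (p ^ 1)) (A : ℕ)
  (f : CuspForm (G0 (p ^ 1)) (2 * A + 2)), p.Prime →
  ∃ g : CuspForm (G0 (p ^ 0)) (2 * A + 2), ∀ z : ℂ, 0 < z.im →
    fzK g z = fzK f z + ∑ i ∈ Finset.range p, ((z + i) ^ (2 * A + 2))⁻¹ * fzK f (-1 / (z + i))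

/-- The content of K1R. -/
def K1R : Prop := ∀ (p : ℕ) (_ : NeZero (p ^ 1)) (A : ℕ) (hk : 0 < (2 * A + 2 : ℤ))
  (f : CuspForm (G0 (p ^ 1)) (2 * A + 2)), p.Prime → IsNewformK p 1 f →
  ∃ w : ℤ, Sg w ∧ RootNumK w hk f ∧ FkRel A w f

/-- K1R. Proof. `N = p`. `g` from KRW: `FrK A f g`, and then `FrK A g f`: `g(-1/(Nz)) = (-1)^(A+1) N^(A+1) z^(2A+2) f(z)`. `h` from K1T for `g`: with `-1/(z+i) = -1/(N z')`, `z' = (z+i)/p`,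
`(z+i)^(-2A-2) g(-1/(z+i)) = (-1)^(A+1) p^(-A-1) f((z+i)/p)`, and `∑_{i<p} f((z+i)/p) = p ∑_m a_{pm} q^m = p a_p f(z)` (SKA1, `hecke_p`). So `h = g + κ f`, `κ = (-1)^(A+1) p^(-A) a_p`, also for the coefficients (`fcK` of `h`: uniqueness of the
expansion, as in the proof of KRT or `Pool/Agent/Helper21/WK/M_KN4.lean`). `g` has the eigenvalues `fcK f l` of `f` (KRHc; `l ≠ p` prime does not divide `N = p^1`), so `h` has them too (`HeckeEigK` is linear in the coefficients), and `h = 0` by `new` (`p^(1-1) = p^0`).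
So `g = w' f`, `w' = -κ`, and applying `FrK` twice `w'^2 = 1` (`f ≠ 0` because `fcK f 1 = 1`): `w' = 1` or `-1`. `FkRel`: solve `FrK`. `RootNumK`: KRFE and `LamK` of `g = w' f` (as a cusp form `g = f` or `g = -f`; see the proof of the T3 version,
`Pool/Agent/Helper78/T3`, or `KRN` of Helper28/TK). -/
def StK1R : Prop := SKA1 → K1T → KRW → KRFE → KRHc → K1R

end Pool.Agent.Helper92.TN
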